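import Mathlib

set_option autoImplicit false

open MeasureTheory AddCircle

namespace Pool.Agent.Results.MP_535799_an.NonSidon

/-- The circle `ℝ / 2πℤ`. -/
abbrev Circ : Type := AddCircle (2 * Real.pi)

local instance factTwoPi : Fact (0 < 2 * Real.pi) := ⟨Real.two_pi_pos⟩

/-- Normalised Lebesgue (Haar) measure on the circle. -/
noncomputable abbrev lam : Measure Circ := haarAddCircle

/-- The Banach space `L^1` of the circle. -/
noncomputable abbrev L1 : Type := Lp ℂ 1 lam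

/-- The convolution product of two elements of `L^1`. -/
noncomputable def conv (f g : L1) : L1 :=
  Integrable.toL1 (convolution (⇑f) (⇑g) (ContinuousLinearMap.mul ℂ ℂ) lam)
    ((L1.integrable_coeFn f).integrable_convolution (ContinuousLinearMap.mul ℂ ℂ)
      (L1.integrable_coeFn g))

/-- A closed subalgebra of `L^1`: a norm-closed complex linear subspace which is stable under
convolution. -/
def IsClosedSubalgebra (A : Submodule ℂ L1) : Prop :=
  IsClosed (A : Set L1) ∧ ∀ f ∈ A, ∀ g ∈ A, conv f g ∈ A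

/-- Property (P). -/
def PropertyP (Q : Set ℤ) : Prop :=
  ∀ A : Submodule ℂ L1, IsClosedSubalgebra A →
    ∀ f ∈ A, (∀ n : ℤ, n ∉ Q → fourierCoeff (⇑f) n = 0) →
      f ∈ closure ((Submodule.span ℂ {e : L1 | e ∈ A ∧ conv e e = e} : Submodule ℂ L1) : Set L1)

/-- Sidon sets. -/
def IsSidon (Q : Set ℤ) : Prop :=
  ∃ C : ℝ, ∀ (F : Finset ℤ) (a : ℤ → ℂ), (F : Set ℤ) ⊆ Q →
    ∑ n ∈ F, ‖a n‖ ≤ C * ⨆ x : Circ, ‖∑ n ∈ F, a n * fourier n x‖

theorem fourierCoeff_conv (f g : L1) (n : ℤ) :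
    fourierCoeff (⇑(conv f g)) n = fourierCoeff (⇑f) n * fourierCoeff (⇑g) n := by
  have h1 : ⇑(conv f g) =ᵐ[lam]
      convolution (⇑f) (⇑g) (ContinuousLinearMap.mul ℂ ℂ) lam := Integrable.coeFn_toL1 _
  rw [fourierCoeff_congr_ae h1]
  have hf := (L1.integrable_coeFn f).fourier_smul (-n)
  have hg := (L1.integrable_coeFn g).fourier_smul (-n)
  have key := integral_convolution (ContinuousLinearMap.mul ℂ ℂ) hf hg
  rw [fourierCoeff, fourierCoeff, fourierCoeff]
  rw [ContinuousLinearMap.mul_apply'] at key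
  rw [← key]
  refine integral_congr_ae (Filter.Eventually.of_forall fun x => ?_)
  simp only [convolution_def, ContinuousLinearMap.mul_apply', smul_eq_mul]
  rw [← integral_const_mul]
  refine integral_congr_ae (Filter.Eventually.of_forall fun t => ?_)
  have : (fourier (-n) x : ℂ) = fourier (-n) t * fourier (-n) (x - t) := by
    simp only [fourier_apply]
    rw [← Circle.coe_mul, ← toCircle_add, ← smul_add]
    congr 3
    abel
  simp only [this]
  ring

/-! ### Trigonometric polynomials in `L^1` -/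

/-- The character of frequency `n` as an element of `L^1`. -/
noncomputable abbrev ch (n : ℤ) : L1 := fourierLp 1 n

theorem fourierCoeff_ch (n m : ℤ) : fourierCoeff (⇑(ch n)) m = if m = n then 1 else 0 := by
  rw [fourierCoeff_congr_ae (coeFn_fourierLp 1 n), fourierCoeff_fourier]
  by_cases h : m = n
  · subst h; simp
  · simp [h]

theorem fourierCoeff_add (f g : L1) (n : ℤ) :
    fourierCoeff (⇑(f + g)) n = fourierCoeff (⇑f) n + fourierCoeff (⇑g) n := by
  rw [fourierCoeff_congr_ae (Lp.coeFn_add f g),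
    fourierCoeff.add (L1.integrable_coeFn f) (L1.integrable_coeFn g)]
  rfl

theorem fourierCoeff_smul (c : ℂ) (f : L1) (n : ℤ) :
    fourierCoeff (⇑(c • f)) n = c * fourierCoeff (⇑f) n := by
  rw [fourierCoeff_congr_ae (Lp.coeFn_smul c f), fourierCoeff.const_smul]
  rfl

theorem norm_fourierCoeff_le (f : L1) (n : ℤ) : ‖fourierCoeff (⇑f) n‖ ≤ ‖f‖ := by
  rw [fourierCoeff, L1.norm_eq_integral_norm]
  refine (norm_integral_le_integral_norm _).trans (le_of_eq ?_)
  refine integral_congr_ae (Filter.Eventually.of_forall fun x => ?_)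
  simp only [norm_smul, fourier_apply, Circle.norm_coe, one_mul]

/-- The `n`-th Fourier coefficient as a continuous linear functional. -/
noncomputable def coefL (n : ℤ) : L1 →L[ℂ] ℂ :=
  LinearMap.mkContinuous
    { toFun := fun f => fourierCoeff (⇑f) n
      map_add' := fun f g => fourierCoeff_add f g n
      map_smul' := fun c f => fourierCoeff_smul c f n } 1
    (fun f => by rw [one_mul]; exact norm_fourierCoeff_le f n)

theorem coefL_apply (n : ℤ) (f : L1) : coefL n f = fourierCoeff (⇑f) n := rfl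

theorem coefL_ch (n m : ℤ) : coefL m (ch n) = if m = n then 1 else 0 := fourierCoeff_ch n m

theorem coefL_conv (f g : L1) (n : ℤ) : coefL n (conv f g) = coefL n f * coefL n g :=
  fourierCoeff_conv f g n

/-- Fejer means. -/
noncomputable def fej (N : ℕ) : L1 →L[ℂ] L1 :=
  ((N : ℂ) + 1)⁻¹ • ∑ j ∈ Finset.range (N + 1), ∑ k ∈ Finset.range (N + 1),
    (coefL ((j : ℤ) - k)).smulRight (ch ((j : ℤ) - k))

/-- Fejer weights. -/
noncomputable def wt (N : ℕ) (m : ℤ) : ℝ :=
  ((N : ℝ) + 1)⁻¹ * (((Finset.range (N + 1) ×ˢ Finset.range (N + 1)).filter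
    (fun p : ℕ × ℕ => (p.1 : ℤ) - p.2 = m)).card : ℝ)

theorem wt_nonneg (N : ℕ) (m : ℤ) : 0 ≤ wt N m := by
  unfold wt; positivity

theorem wt_le_one (N : ℕ) (m : ℤ) : wt N m ≤ 1 := by
  unfold wt
  rw [inv_mul_le_iff₀ (by positivity), mul_one]
  have : ((Finset.range (N + 1) ×ˢ Finset.range (N + 1)).filter
    (fun p : ℕ × ℕ => (p.1 : ℤ) - p.2 = m)).card ≤ (Finset.range (N + 1)).card := by
    apply Finset.card_le_card_of_injOn (fun p => p.1)
    · intro p hp
      simp only [Finset.coe_filter, Finset.mem_product, Set.mem_ofPred_eq] at hp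
      exact_mod_cast hp.1.1
    · intro p hp q hq h
      simp only [Finset.coe_filter, Finset.mem_product, Set.mem_ofPred_eq] at hp hq
      simp only at h
      ext
      · exact h
      · have h1 := hp.2
        have h2 := hq.2
        omega
  rw [Finset.card_range] at this
  exact_mod_cast this

theorem wt_ge (N : ℕ) (m : ℤ) (hm : m.natAbs ≤ N) :
    1 - (m.natAbs : ℝ) / ((N : ℝ) + 1) ≤ wt N m := by
  unfold wt
  have hcard : (Finset.range (N + 1 - m.natAbs)).card ≤
      ((Finset.range (N + 1) ×ˢ Finset.range (N + 1)).filter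
    (fun p : ℕ × ℕ => (p.1 : ℤ) - p.2 = m)).card := by
    apply Finset.card_le_card_of_injOn (fun k => (k + m.toNat, k + (-m).toNat))
    · intro k hk
      simp only [Finset.coe_range, Set.mem_Iio] at hk
      simp only [Finset.coe_filter, Finset.mem_product, Set.mem_ofPred_eq, Finset.mem_range]
      omega
    · intro p hp q hq h
      simp only [Prod.mk.injEq] at h
      omega
  rw [Finset.card_range] at hcard
  have h2 : ((N : ℝ) + 1) - (m.natAbs : ℝ) ≤ (((Finset.range (N + 1) ×ˢ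
      Finset.range (N + 1)).filter
    (fun p : ℕ × ℕ => (p.1 : ℤ) - p.2 = m)).card : ℝ) := by
    have : ((N + 1 - m.natAbs : ℕ) : ℝ) = ((N : ℝ) + 1) - (m.natAbs : ℝ) := by
      rw [Nat.cast_sub (by omega)]; push_cast; ring
    rw [← this]
    exact_mod_cast hcard
  rw [inv_mul_eq_div, le_div_iff₀ (by positivity)]
  refine le_trans (le_of_eq ?_) h2
  field_simp

theorem wt_tendsto (m : ℤ) : Filter.Tendsto (fun N => wt N m) Filter.atTop (nhds 1) := by
  refine tendsto_of_tendsto_of_tendsto_of_le_of_le'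
    (g := fun N : ℕ => 1 - (m.natAbs : ℝ) / ((N : ℝ) + 1)) (h := fun _ => 1) ?_
    tendsto_const_nhds ?_ ?_
  · have : Filter.Tendsto (fun N : ℕ => (m.natAbs : ℝ) / ((N : ℝ) + 1)) Filter.atTop (nhds 0) := by
      apply Filter.Tendsto.div_atTop tendsto_const_nhds
      exact Filter.tendsto_atTop_add_const_right _ _ tendsto_natCast_atTop_atTop
    simpa using tendsto_const_nhds.sub this
  · filter_upwards [Filter.eventually_ge_atTop m.natAbs] with N hN using wt_ge N m hN
  · exact Filter.Eventually.of_forall fun N => wt_le_one N m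

theorem coefL_fej (N : ℕ) (f : L1) (m : ℤ) : coefL m (fej N f) = (wt N m : ℂ) * coefL m f := by
  unfold fej wt
  simp only [smul_apply, sum_apply,
    ContinuousLinearMap.smulRight_apply, map_smul, map_sum, coefL_ch, smul_eq_mul]
  push_cast
  rw [mul_assoc]
  congr 1
  rw [← Finset.sum_product', Finset.card_filter]
  push_cast
  rw [Finset.sum_mul]
  refine Finset.sum_congr rfl fun p _ => ?_
  by_cases h : (p.1 : ℤ) - p.2 = m
  · simp [h]
  · simp [h, Ne.symm h]

theorem integral_norm_convolution_le (K f : Circ → ℂ) (hK : Integrable K lam)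
    (hf : Integrable f lam) :
    ∫ x, ‖convolution K f (ContinuousLinearMap.mul ℂ ℂ) lam x‖ ∂lam ≤
      (∫ x, ‖K x‖ ∂lam) * ∫ x, ‖f x‖ ∂lam := by
  have h1 := integral_convolution (ContinuousLinearMap.mul ℝ ℝ) hK.norm hf.norm
  rw [ContinuousLinearMap.mul_apply'] at h1
  rw [← h1]
  refine integral_mono (hK.integrable_convolution _ hf).norm
    (hK.norm.integrable_convolution _ hf.norm) fun x => ?_
  simp only [convolution_def, ContinuousLinearMap.mul_apply']
  refine (norm_integral_le_integral_norm _).trans (le_of_eq ?_)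
  simp only [norm_mul]

/-- The Fejer kernel. -/
noncomputable def ker (N : ℕ) (x : Circ) : ℂ :=
  ((N : ℂ) + 1)⁻¹ * ∑ j ∈ Finset.range (N + 1), ∑ k ∈ Finset.range (N + 1),
    fourier ((j : ℤ) - k) x

theorem continuous_ker (N : ℕ) : Continuous (ker N) := by
  unfold ker
  fun_prop

theorem integrable_ker (N : ℕ) : Integrable (ker N) lam :=
  (continuous_ker N).integrable_of_hasCompactSupport
    (HasCompactSupport.of_compactSpace _)

theorem integral_fourier (n : ℤ) : ∫ x, (fourier n x : ℂ) ∂lam = if n = 0 then 1 else 0 := by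
  have h := congrFun (fourierCoeff_fourier (T := 2 * Real.pi) n) 0
  rw [fourierCoeff] at h
  simp only [neg_zero, fourier_zero, one_smul] at h
  rw [h]
  by_cases hn : n = 0
  · subst hn; simp
  · simp [hn, Ne.symm hn]

theorem norm_ker (N : ℕ) (x : Circ) : (‖ker N x‖ : ℂ) = ker N x := by
  have h : ker N x = ((((N : ℝ) + 1)⁻¹ * ‖∑ j ∈ Finset.range (N + 1),
      (fourier (j : ℤ) x : ℂ)‖ ^ 2 : ℝ) : ℂ) := by
    rw [ker]
    push_cast
    congr 1
    rw [← Complex.mul_conj', map_sum, Finset.sum_mul_sum]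
    refine Finset.sum_congr rfl fun j _ => Finset.sum_congr rfl fun k _ => ?_
    rw [← fourier_neg, ← fourier_add, sub_eq_add_neg]
  rw [h, Complex.norm_real, Real.norm_of_nonneg (by positivity)]

theorem integral_norm_ker (N : ℕ) : ∫ x, ‖ker N x‖ ∂lam = 1 := by
  have h1 : ((∫ x, ‖ker N x‖ ∂lam : ℝ) : ℂ) = 1 := by
    rw [← integral_complex_ofReal]
    simp only [norm_ker]
    unfold ker
    rw [integral_const_mul, integral_finsetSum]
    swap
    · intro j _
      exact Continuous.integrable_of_hasCompactSupport (by fun_prop)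
        (HasCompactSupport.of_compactSpace _)
    have : ∀ j ∈ Finset.range (N + 1), ∫ x, ∑ k ∈ Finset.range (N + 1),
        (fourier ((j : ℤ) - k) x : ℂ) ∂lam = 1 := by
      intro j hj
      rw [integral_finsetSum]
      swap
      · intro k _
        exact Continuous.integrable_of_hasCompactSupport (by fun_prop)
          (HasCompactSupport.of_compactSpace _)
      simp only [integral_fourier]
      rw [Finset.sum_eq_single j]
      · simp
      · intro k _ hk
        rw [if_neg]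
        omega
      · intro h; exact absurd hj h
    rw [Finset.sum_congr rfl this]
    simp only [Finset.sum_const, Finset.card_range, nsmul_eq_mul, mul_one]
    push_cast
    have : (N : ℂ) + 1 ≠ 0 := by exact_mod_cast Nat.succ_ne_zero N
    field_simp
  exact_mod_cast h1

theorem fourier_sub_arg (m : ℤ) (x t : Circ) :
    (fourier m (x - t) : ℂ) = fourier m x * fourier (-m) t := by
  simp only [fourier_apply]
  rw [← Circle.coe_mul, ← toCircle_add, neg_smul, smul_sub, sub_eq_add_neg]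

theorem fej_ae (N : ℕ) (f : L1) :
    ⇑(fej N f) =ᵐ[lam] convolution (ker N) (⇑f) (ContinuousLinearMap.mul ℂ ℂ) lam := by
  have h1 : fej N f = ContinuousMap.toLp (E := ℂ) 1 lam ℂ (((N : ℂ) + 1)⁻¹ •
      ∑ j ∈ Finset.range (N + 1), ∑ k ∈ Finset.range (N + 1),
        (coefL ((j : ℤ) - k) f) • (fourier ((j : ℤ) - k) : C(Circ, ℂ))) := by
    unfold fej
    simp only [smul_apply, sum_apply,
      ContinuousLinearMap.smulRight_apply, map_smul, map_sum]
  rw [h1]
  refine (ContinuousMap.coeFn_toLp lam _).trans ?_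
  refine Filter.Eventually.of_forall fun x => ?_
  rw [convolution_eq_swap]
  simp only [ContinuousLinearMap.mul_apply']
  simp only [ContinuousMap.coe_smul, Pi.smul_apply, ContinuousMap.coe_sum, Finset.sum_apply,
    smul_eq_mul]
  unfold ker
  have hint : ∀ j k : ℕ, Integrable
      (fun t => (fourier ((j : ℤ) - k) (x - t) : ℂ) * f t) lam := by
    intro j k
    have := (L1.integrable_coeFn f).fourier_smul (-((j : ℤ) - k))
    refine (this.const_mul (fourier ((j : ℤ) - k) x : ℂ)).congr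
      (Filter.Eventually.of_forall fun t => ?_)
    simp only [smul_eq_mul]
    rw [← mul_assoc, fourier_sub_arg]
  have heq : ∀ j k : ℕ, ∫ t, (fourier ((j : ℤ) - k) (x - t) : ℂ) * f t ∂lam =
      coefL ((j : ℤ) - k) f * fourier ((j : ℤ) - k) x := by
    intro j k
    rw [coefL_apply, fourierCoeff]
    rw [← integral_mul_const]
    refine integral_congr_ae (Filter.Eventually.of_forall fun t => ?_)
    simp only [smul_eq_mul]
    rw [fourier_sub_arg]
    ring
  have : ∀ t : Circ, (((N : ℂ) + 1)⁻¹ * ∑ j ∈ Finset.range (N + 1),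
      ∑ k ∈ Finset.range (N + 1), (fourier ((j : ℤ) - k) (x - t) : ℂ)) * f t =
      ((N : ℂ) + 1)⁻¹ * ∑ j ∈ Finset.range (N + 1),
      ∑ k ∈ Finset.range (N + 1), (fourier ((j : ℤ) - k) (x - t) : ℂ) * f t := by
    intro t
    rw [mul_assoc, Finset.sum_mul]
    congr 1
    refine Finset.sum_congr rfl fun j _ => ?_
    rw [Finset.sum_mul]
  simp only [this]
  rw [integral_const_mul, integral_finsetSum _
    (fun j _ => integrable_finsetSum _ fun k _ => hint j k)]
  congr 1
  refine Finset.sum_congr rfl fun j _ => ?_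
  rw [integral_finsetSum _ (fun k _ => hint j k)]
  exact Finset.sum_congr rfl fun k _ => (heq j k).symm

theorem norm_fej_le (N : ℕ) (f : L1) : ‖fej N f‖ ≤ ‖f‖ := by
  rw [L1.norm_eq_integral_norm, L1.norm_eq_integral_norm]
  have h := integral_norm_convolution_le (ker N) (⇑f) (integrable_ker N) (L1.integrable_coeFn f)
  rw [integral_norm_ker, one_mul] at h
  refine le_trans (le_of_eq ?_) h
  refine integral_congr_ae ?_
  filter_upwards [fej_ae N f] with x hx
  rw [hx]

theorem fej_tendsto (f : L1) :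
    Filter.Tendsto (fun N => fej N f) Filter.atTop (nhds f) := by
  have hdense : ∀ g ∈ Submodule.span ℂ (Set.range ch),
      Filter.Tendsto (fun N => fej N g) Filter.atTop (nhds g) := by
    intro g hg
    induction hg using Submodule.span_induction with
    | mem g hg =>
      obtain ⟨n, rfl⟩ := hg
      have hval : ∀ N : ℕ, n.natAbs ≤ N → fej N (ch n) = (wt N n : ℂ) • ch n := by
        intro N _
        unfold fej wt
        simp only [smul_apply, sum_apply,
          ContinuousLinearMap.smulRight_apply, coefL_ch]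
        push_cast
        rw [mul_smul]
        congr 1
        rw [← Finset.sum_product', Finset.card_filter]
        push_cast
        rw [Finset.sum_smul]
        refine Finset.sum_congr rfl fun p _ => ?_
        by_cases h : (p.1 : ℤ) - p.2 = n
        · simp [h]
        · simp [h]
      have h1 : Filter.Tendsto (fun N : ℕ => (wt N n : ℂ) • ch n) Filter.atTop
          (nhds ((1 : ℂ) • ch n)) := by
        apply Filter.Tendsto.smul_const
        exact (Complex.continuous_ofReal.tendsto 1).comp (wt_tendsto n) |>.trans (by simp)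
      rw [one_smul] at h1
      refine h1.congr' ?_
      filter_upwards [Filter.eventually_ge_atTop n.natAbs] with N hN
      rw [hval N hN]
    | zero => simp
    | add x y _ _ hx hy => simpa only [map_add] using hx.add hy
    | smul c x _ hx => simpa only [map_smul] using hx.const_smul c
  have hcl : f ∈ closure ((Submodule.span ℂ (Set.range ch) : Submodule ℂ L1) : Set L1) := by
    have := span_fourierLp_closure_eq_top (T := 2 * Real.pi) (p := 1) (by simp)
    have h2 : f ∈ (Submodule.span ℂ (Set.range ch)).topologicalClosure := by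
      rw [this]; trivial
    exact h2
  rw [Metric.tendsto_atTop]
  intro ε hε
  obtain ⟨g, hg, hfg⟩ := Metric.mem_closure_iff.1 hcl (ε / 3) (by positivity)
  obtain ⟨M, hM⟩ := Metric.tendsto_atTop.1 (hdense g hg) (ε / 3) (by positivity)
  refine ⟨M, fun N hN => ?_⟩
  calc dist (fej N f) f ≤ dist (fej N f) (fej N g) + dist (fej N g) g + dist g f :=
        dist_triangle4 _ _ _ _
    _ < ε / 3 + ε / 3 + ε / 3 := by
        have h1 : dist (fej N f) (fej N g) ≤ dist f g := by
          rw [dist_eq_norm, dist_eq_norm, ← map_sub]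
          exact norm_fej_le N _
        have h2 := hM N hN
        have h3 : dist g f < ε / 3 := by rw [dist_comm]; exact hfg
        linarith
    _ = ε := by ring

theorem ext_coef {f g : L1} (h : ∀ m, coefL m f = coefL m g) : f = g := by
  have h0 : ∀ N, fej N (f - g) = 0 := by
    intro N
    unfold fej
    simp [ContinuousLinearMap.smulRight_apply, map_sub, h, sub_self]
  have h1 := fej_tendsto (f - g)
  simp only [h0] at h1
  have h2 := tendsto_nhds_unique h1 tendsto_const_nhds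
  exact sub_eq_zero.1 h2

theorem wt_eq_zero (N : ℕ) (m : ℤ) (hm : m ∉ Finset.Icc (-(N : ℤ)) N) : wt N m = 0 := by
  unfold wt
  rw [Finset.filter_eq_empty_iff.2]
  · simp
  · intro p hp h
    simp only [Finset.mem_product, Finset.mem_range] at hp
    apply hm
    rw [Finset.mem_Icc]
    omega

theorem coefL_sum_ch (F : Finset ℤ) (c : ℤ → ℂ) (m : ℤ) :
    coefL m (∑ n ∈ F, c n • ch n) = if m ∈ F then c m else 0 := by
  simp only [map_sum, map_smul, coefL_ch, smul_eq_mul, mul_ite, mul_one, mul_zero,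
    Finset.sum_ite_eq]

theorem fej_eq (N : ℕ) (f : L1) :
    fej N f = ∑ m ∈ Finset.Icc (-(N : ℤ)) N, ((wt N m : ℂ) * coefL m f) • ch m := by
  apply ext_coef
  intro m
  rw [coefL_fej, coefL_sum_ch]
  by_cases h : m ∈ Finset.Icc (-(N : ℤ)) N
  · rw [if_pos h]
  · rw [if_neg h, wt_eq_zero N m h]
    simp

/-- Orthogonality for finite sums of characters indexed by an arbitrary finite set. -/
theorem integral_norm_sq_sum {ι : Type*} (I : Finset ι) (ν : ι → ℤ) (d : ι → ℂ) :
    ((∫ x, ‖∑ i ∈ I, d i * fourier (ν i) x‖ ^ 2 ∂lam : ℝ) : ℂ) =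
      ∑ i ∈ I, ∑ j ∈ I, if ν i = ν j then d i * (starRingEnd ℂ) (d j) else 0 := by
  rw [← integral_complex_ofReal]
  have h : ∀ x : Circ, ((‖∑ i ∈ I, d i * (fourier (ν i) x : ℂ)‖ ^ 2 : ℝ) : ℂ) =
      ∑ i ∈ I, ∑ j ∈ I, (d i * (starRingEnd ℂ) (d j)) * fourier (ν i - ν j) x := by
    intro x
    push_cast
    rw [← Complex.mul_conj', map_sum, Finset.sum_mul_sum]
    refine Finset.sum_congr rfl fun j _ => Finset.sum_congr rfl fun k _ => ?_
    rw [map_mul, ← fourier_neg, sub_eq_add_neg, fourier_add]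
    ring
  simp only [h]
  rw [integral_finsetSum]
  swap
  · intro j _
    exact Continuous.integrable_of_hasCompactSupport (by fun_prop)
      (HasCompactSupport.of_compactSpace _)
  refine Finset.sum_congr rfl fun i _ => ?_
  rw [integral_finsetSum]
  swap
  · intro j _
    exact Continuous.integrable_of_hasCompactSupport (by fun_prop)
      (HasCompactSupport.of_compactSpace _)
  refine Finset.sum_congr rfl fun j _ => ?_
  rw [integral_const_mul, integral_fourier]
  simp only [sub_eq_zero, mul_ite, mul_one, mul_zero]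

theorem integral_norm_sq_sum_inj (F : Finset ℤ) (c : ℤ → ℂ) :
    ∫ x, ‖∑ n ∈ F, c n * fourier n x‖ ^ 2 ∂lam = ∑ n ∈ F, ‖c n‖ ^ 2 := by
  have h := integral_norm_sq_sum F (fun n => n) c
  have h2 : ∑ i ∈ F, ∑ j ∈ F, (if i = j then c i * (starRingEnd ℂ) (c j) else 0) =
      ((∑ n ∈ F, ‖c n‖ ^ 2 : ℝ) : ℂ) := by
    push_cast
    refine Finset.sum_congr rfl fun i hi => ?_
    rw [Finset.sum_ite_eq, if_pos hi, Complex.mul_conj']
  rw [h2] at h
  exact_mod_cast h

theorem integral_norm_sq_sum_le {ι : Type*} (I : Finset ι) (ν : ι → ℤ) (d : ι → ℂ) (B : ℕ)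
    (hB : ∀ i ∈ I, (I.filter (fun j => ν i = ν j)).card ≤ B) :
    ∫ x, ‖∑ i ∈ I, d i * fourier (ν i) x‖ ^ 2 ∂lam ≤ B * ∑ i ∈ I, ‖d i‖ ^ 2 := by
  have h := integral_norm_sq_sum I ν d
  have h1 : ∫ x, ‖∑ i ∈ I, d i * fourier (ν i) x‖ ^ 2 ∂lam ≤
      ∑ i ∈ I, ∑ j ∈ I, if ν i = ν j then ‖d i‖ * ‖d j‖ else 0 := by
    have h3 : 0 ≤ ∫ x, ‖∑ i ∈ I, d i * fourier (ν i) x‖ ^ 2 ∂lam :=
      integral_nonneg fun x => by positivity
    have h4 : ‖((∫ x, ‖∑ i ∈ I, d i * fourier (ν i) x‖ ^ 2 ∂lam : ℝ) : ℂ)‖ =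
        ∫ x, ‖∑ i ∈ I, d i * fourier (ν i) x‖ ^ 2 ∂lam := by
      rw [Complex.norm_real, Real.norm_of_nonneg h3]
    rw [← h4, h]
    refine (norm_sum_le _ _).trans (Finset.sum_le_sum fun i _ => (norm_sum_le _ _).trans
      (Finset.sum_le_sum fun j _ => ?_))
    split_ifs
    · rw [norm_mul, RCLike.norm_conj]
    · simp
  refine h1.trans ?_
  have h2 : ∑ i ∈ I, ∑ j ∈ I, (if ν i = ν j then ‖d i‖ * ‖d j‖ else 0) ≤
      ∑ i ∈ I, ∑ j ∈ I, (if ν i = ν j then (‖d i‖ ^ 2 + ‖d j‖ ^ 2) / 2 else 0) := by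
    refine Finset.sum_le_sum fun i _ => Finset.sum_le_sum fun j _ => ?_
    split_ifs
    · nlinarith [sq_nonneg (‖d i‖ - ‖d j‖)]
    · exact le_rfl
  refine h2.trans ?_
  have h3 : ∑ i ∈ I, ∑ j ∈ I, (if ν i = ν j then (‖d i‖ ^ 2 + ‖d j‖ ^ 2) / 2 else 0) =
      (∑ i ∈ I, ∑ j ∈ I, (if ν i = ν j then ‖d i‖ ^ 2 / 2 else 0)) +
      ∑ i ∈ I, ∑ j ∈ I, (if ν i = ν j then ‖d j‖ ^ 2 / 2 else 0) := by
    rw [← Finset.sum_add_distrib]
    refine Finset.sum_congr rfl fun i _ => ?_
    rw [← Finset.sum_add_distrib]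
    refine Finset.sum_congr rfl fun j _ => ?_
    split_ifs
    · ring
    · simp
  have h4 : ∑ i ∈ I, ∑ j ∈ I, (if ν i = ν j then ‖d j‖ ^ 2 / 2 else 0) =
      ∑ i ∈ I, ∑ j ∈ I, (if ν i = ν j then ‖d i‖ ^ 2 / 2 else 0) := by
    rw [Finset.sum_comm]
    refine Finset.sum_congr rfl fun i _ => Finset.sum_congr rfl fun j _ => ?_
    simp only [eq_comm]
  have h5 : ∑ i ∈ I, ∑ j ∈ I, (if ν i = ν j then ‖d i‖ ^ 2 / 2 else 0) ≤
      ∑ i ∈ I, (B : ℝ) * (‖d i‖ ^ 2 / 2) := by
    refine Finset.sum_le_sum fun i hi => ?_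
    rw [← Finset.sum_filter, Finset.sum_const, nsmul_eq_mul]
    exact mul_le_mul_of_nonneg_right (by exact_mod_cast hB i hi) (by positivity)
  rw [h3, h4]
  refine (add_le_add h5 h5).trans (le_of_eq ?_)
  rw [← Finset.sum_add_distrib, Finset.mul_sum]
  refine Finset.sum_congr rfl fun i _ => ?_
  ring

theorem sum_ch_ae (F : Finset ℤ) (c : ℤ → ℂ) :
    ⇑(∑ n ∈ F, c n • ch n) =ᵐ[lam] fun x => ∑ n ∈ F, c n * (fourier n x : ℂ) := by
  have h1 : (∑ n ∈ F, c n • ch n) = ContinuousMap.toLp (E := ℂ) 1 lam ℂ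
      (∑ n ∈ F, c n • (fourier n : C(Circ, ℂ))) := by
    simp only [map_smul, map_sum]
  rw [h1]
  refine (ContinuousMap.coeFn_toLp lam _).trans ?_
  refine Filter.Eventually.of_forall fun x => ?_
  simp only [ContinuousMap.coe_sum, ContinuousMap.coe_smul, Finset.sum_apply, Pi.smul_apply,
    smul_eq_mul]

theorem integrable_cont {g : Circ → ℝ} (hg : Continuous g) : Integrable g lam :=
  hg.integrable_of_hasCompactSupport (HasCompactSupport.of_compactSpace _)

theorem sq_integral_le {g : Circ → ℝ} (hg : Continuous g) :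
    (∫ x, g x ∂lam) ^ 2 ≤ ∫ x, g x ^ 2 ∂lam := by
  set m := ∫ x, g x ∂lam with hm
  have h : 0 ≤ ∫ x, (g x - m) ^ 2 ∂lam := integral_nonneg fun x => by positivity
  have h2 : ∫ x, (g x - m) ^ 2 ∂lam = (∫ x, g x ^ 2 ∂lam) - m ^ 2 := by
    have : ∀ x, (g x - m) ^ 2 = g x ^ 2 - 2 * m * g x + m ^ 2 := fun x => by ring
    simp only [this]
    rw [integral_add, integral_sub, integral_const_mul, ← hm, integral_const]
    · simp
      ring
    · exact integrable_cont (by fun_prop)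
    · exact integrable_cont (by fun_prop)
    · exact integrable_cont (by fun_prop)
    · exact integrable_cont (by fun_prop)
  linarith

theorem norm_sum_ch (F : Finset ℤ) (c : ℤ → ℂ) :
    ‖∑ n ∈ F, c n • ch n‖ = ∫ x, ‖∑ n ∈ F, c n * (fourier n x : ℂ)‖ ∂lam := by
  rw [L1.norm_eq_integral_norm]
  refine integral_congr_ae ?_
  filter_upwards [sum_ch_ae F c] with x hx
  rw [hx]

theorem norm_sum_ch_sq_le (F : Finset ℤ) (c : ℤ → ℂ) :
    ‖∑ n ∈ F, c n • ch n‖ ^ 2 ≤ ∑ n ∈ F, ‖c n‖ ^ 2 := by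
  rw [norm_sum_ch, ← integral_norm_sq_sum_inj]
  exact sq_integral_le (by fun_prop)

/-- Comparison of the `L^1` norm with the `ℓ^2` norm of the coefficients. -/
theorem norm_sq_le_of_coef {f : L1} {K : ℝ} (h : ∀ F : Finset ℤ, ∑ n ∈ F, ‖coefL n f‖ ^ 2 ≤ K) :
    ‖f‖ ^ 2 ≤ K := by
  have h1 : ∀ N : ℕ, ‖fej N f‖ ^ 2 ≤ K := by
    intro N
    rw [fej_eq]
    refine (norm_sum_ch_sq_le _ _).trans ((Finset.sum_le_sum fun n _ => ?_).trans
      (h (Finset.Icc (-(N : ℤ)) N)))
    rw [norm_mul, mul_pow, Complex.norm_real, Real.norm_of_nonneg (wt_nonneg N n)]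
    have h1 : wt N n ^ 2 ≤ 1 := pow_le_one₀ (wt_nonneg N n) (wt_le_one N n)
    calc wt N n ^ 2 * ‖coefL n f‖ ^ 2 ≤ 1 * ‖coefL n f‖ ^ 2 :=
          mul_le_mul_of_nonneg_right h1 (by positivity)
      _ = ‖coefL n f‖ ^ 2 := one_mul _
  exact le_of_tendsto' (((continuous_norm.tendsto f).comp (fej_tendsto f)).pow 2) h1

theorem poly_ineq (t x : ℝ) (ht : 0 < t) (hx : 0 ≤ x) :
    x ^ 2 ≤ 2 / 3 * t * x + 1 / 3 * (t ^ 2)⁻¹ * x ^ 4 := by
  have h : 0 ≤ x * (x - t) ^ 2 * (x + 2 * t) := by positivity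
  have h2 : 2 / 3 * t * x + 1 / 3 * (t ^ 2)⁻¹ * x ^ 4 - x ^ 2 =
      (1 / 3 * (t ^ 2)⁻¹) * (x * (x - t) ^ 2 * (x + 2 * t)) := by
    field_simp
    ring
  have h3 : 0 ≤ (1 / 3 * (t ^ 2)⁻¹) * (x * (x - t) ^ 2 * (x + 2 * t)) := by positivity
  linarith

/-- From an `L^4`-`L^2` inequality to an `L^2`-`L^1` inequality. -/
theorem l2_le_l1 {u : Circ → ℝ} (hu : Continuous u) (hu0 : ∀ x, 0 ≤ u x) (B : ℝ) (hB : 0 < B)
    (h4 : ∫ x, u x ^ 4 ∂lam ≤ B * (∫ x, u x ^ 2 ∂lam) ^ 2) :
    ∫ x, u x ^ 2 ∂lam ≤ B * (∫ x, u x ∂lam) ^ 2 := by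
  set b := ∫ x, u x ^ 2 ∂lam with hb
  set a := ∫ x, u x ∂lam with ha
  have hb0 : 0 ≤ b := integral_nonneg fun x => by positivity
  have ha0 : 0 ≤ a := integral_nonneg fun x => hu0 x
  rcases hb0.eq_or_lt with hb1 | hb1
  · rw [← hb1]; positivity
  set t := Real.sqrt (B * b) with ht
  have ht0 : 0 < t := Real.sqrt_pos.2 (by positivity)
  have ht2 : t ^ 2 = B * b := Real.sq_sqrt (by positivity)
  have h1 : b ≤ 2 / 3 * t * a + 1 / 3 * (t ^ 2)⁻¹ * ∫ x, u x ^ 4 ∂lam := by
    have : b ≤ ∫ x, (2 / 3 * t * u x + 1 / 3 * (t ^ 2)⁻¹ * u x ^ 4) ∂lam := by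
      rw [hb]
      refine integral_mono (integrable_cont (by fun_prop)) (integrable_cont (by fun_prop)) ?_
      intro x
      exact poly_ineq t (u x) ht0 (hu0 x)
    rwa [integral_add (integrable_cont (by fun_prop)) (integrable_cont (by fun_prop)),
      integral_const_mul, integral_const_mul, ← ha] at this
  have h2 : 1 / 3 * (t ^ 2)⁻¹ * ∫ x, u x ^ 4 ∂lam ≤ 1 / 3 * b := by
    calc 1 / 3 * (t ^ 2)⁻¹ * ∫ x, u x ^ 4 ∂lam ≤ 1 / 3 * (t ^ 2)⁻¹ * (B * b ^ 2) :=
          mul_le_mul_of_nonneg_left h4 (by positivity)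
      _ = 1 / 3 * b := by
          rw [ht2]
          field_simp
  have h3 : b ≤ t * a := by linarith
  have h5 : b ^ 2 ≤ B * b * a ^ 2 := by
    calc b ^ 2 ≤ (t * a) ^ 2 := pow_le_pow_left₀ hb0 h3 2
      _ = B * b * a ^ 2 := by rw [mul_pow, ht2]
  have h6 : b * b ≤ b * (B * a ^ 2) := by nlinarith
  exact le_of_mul_le_mul_left h6 hb1

theorem sq_coef_le (Q : Set ℤ) (B : ℕ) (hB0 : 0 < B)
    (hQ : ∀ F : Finset ℤ, (F : Set ℤ) ⊆ Q → ∀ i ∈ F ×ˢ F,
      ((F ×ˢ F).filter (fun j : ℤ × ℤ => i.1 + i.2 = j.1 + j.2)).card ≤ B)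
    (f : L1) (hf : ∀ n, n ∉ Q → coefL n f = 0) (F : Finset ℤ) :
    ∑ n ∈ F, ‖coefL n f‖ ^ 2 ≤ B * ‖f‖ ^ 2 := by
  classical
  have key : ∀ N : ℕ, ∑ n ∈ Finset.Icc (-(N : ℤ)) N, ‖(wt N n : ℂ) * coefL n f‖ ^ 2 ≤
      B * ‖f‖ ^ 2 := by
    intro N
    set c : ℤ → ℂ := fun n => (wt N n : ℂ) * coefL n f with hc
    set G := (Finset.Icc (-(N : ℤ)) N).filter (fun n => n ∈ Q) with hG
    have hGQ : (G : Set ℤ) ⊆ Q := by
      intro n hn
      simp only [hG, Finset.coe_filter, Set.mem_ofPred_eq] at hn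
      exact hn.2
    have hsum : ∀ (M : Type) [AddCommMonoid M] (φ : ℤ → M), (∀ n, c n = 0 → φ n = 0) →
        ∑ n ∈ Finset.Icc (-(N : ℤ)) N, φ n = ∑ n ∈ G, φ n := by
      intro M _ φ hφ
      rw [hG]
      refine (Finset.sum_filter_of_ne fun n _ hne => ?_).symm
      by_contra hnQ
      exact hne (hφ n (by rw [hc]; simp [hf n hnQ]))
    have h1 : fej N f = ∑ n ∈ G, c n • ch n := by
      rw [fej_eq]
      exact hsum _ (fun n => c n • ch n) (fun n hn => by simp [hn])
    have h2 : ∑ n ∈ Finset.Icc (-(N : ℤ)) N, ‖c n‖ ^ 2 = ∑ n ∈ G, ‖c n‖ ^ 2 :=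
      hsum _ (fun n => ‖c n‖ ^ 2) (fun n hn => by simp [hn])
    rw [h2]
    have hcont : Continuous (fun x : Circ => ‖∑ n ∈ G, c n * (fourier n x : ℂ)‖) := by fun_prop
    have h4 : ∫ x, ‖∑ n ∈ G, c n * (fourier n x : ℂ)‖ ^ 4 ∂lam ≤
        B * (∫ x, ‖∑ n ∈ G, c n * (fourier n x : ℂ)‖ ^ 2 ∂lam) ^ 2 := by
      have h5 := integral_norm_sq_sum_le (G ×ˢ G) (fun i => i.1 + i.2)
        (fun i => c i.1 * c i.2) B (hQ G hGQ)
      have h6 : ∀ x : Circ, ‖∑ n ∈ G, c n * (fourier n x : ℂ)‖ ^ 4 =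
          ‖∑ i ∈ G ×ˢ G, c i.1 * c i.2 * (fourier (i.1 + i.2) x : ℂ)‖ ^ 2 := by
        intro x
        have : ∑ i ∈ G ×ˢ G, c i.1 * c i.2 * (fourier (i.1 + i.2) x : ℂ) =
            (∑ n ∈ G, c n * (fourier n x : ℂ)) * (∑ n ∈ G, c n * (fourier n x : ℂ)) := by
          rw [Finset.sum_mul_sum, ← Finset.sum_product']
          refine Finset.sum_congr rfl fun i _ => ?_
          rw [fourier_add]
          ring
        rw [this, norm_mul]
        ring
      simp only [h6]
      refine h5.trans (le_of_eq ?_)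
      rw [integral_norm_sq_sum_inj, sq (∑ n ∈ G, ‖c n‖ ^ 2), Finset.sum_mul_sum,
        ← Finset.sum_product']
      congr 1
      refine Finset.sum_congr rfl fun i _ => ?_
      rw [norm_mul]
      ring
    have h7 := l2_le_l1 hcont (fun x => norm_nonneg _) B (by exact_mod_cast hB0) h4
    rw [integral_norm_sq_sum_inj, ← norm_sum_ch, ← h1] at h7
    refine h7.trans (mul_le_mul_of_nonneg_left ?_ (by positivity))
    exact pow_le_pow_left₀ (norm_nonneg _) (norm_fej_le N f) 2
  have hlim : Filter.Tendsto (fun N : ℕ => ∑ n ∈ F, ‖(wt N n : ℂ) * coefL n f‖ ^ 2) Filter.atTop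
      (nhds (∑ n ∈ F, ‖coefL n f‖ ^ 2)) := by
    refine tendsto_finsetSum _ fun n _ => ?_
    have h1 : Filter.Tendsto (fun N : ℕ => ‖(wt N n : ℂ) * coefL n f‖ ^ 2) Filter.atTop
        (nhds (‖((1 : ℝ) : ℂ) * coefL n f‖ ^ 2)) := by
      apply Filter.Tendsto.pow
      apply Filter.Tendsto.norm
      apply Filter.Tendsto.mul_const
      exact (Complex.continuous_ofReal.tendsto 1).comp (wt_tendsto n)
    simpa using h1
  refine le_of_tendsto hlim ?_
  obtain ⟨M, hM⟩ : ∃ M : ℕ, ∀ n ∈ F, n.natAbs ≤ M :=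
    ⟨F.sup Int.natAbs, fun n hn => Finset.le_sup hn⟩
  filter_upwards [Filter.eventually_ge_atTop M] with N hN
  refine le_trans (Finset.sum_le_sum_of_subset_of_nonneg (fun n hn => ?_)
    fun n _ _ => by positivity) (key N)
  rw [Finset.mem_Icc]
  have := hM n hn
  omega

/-- Polynomials without constant term act on a subalgebra. -/
theorem exists_poly (A : Submodule ℂ L1) (hA : IsClosedSubalgebra A) (f : L1) (hf : f ∈ A)
    (p : Polynomial ℂ) :
    ∃ g ∈ A, ∀ n, coefL n g = coefL n f * p.eval (coefL n f) := by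
  induction p using Polynomial.induction_on' with
  | add p q hp hq =>
    obtain ⟨g, hg, hg'⟩ := hp
    obtain ⟨h, hh, hh'⟩ := hq
    refine ⟨g + h, A.add_mem hg hh, fun n => ?_⟩
    rw [map_add, hg', hh', Polynomial.eval_add]
    ring
  | monomial k c =>
    have hk : ∃ g ∈ A, ∀ n, coefL n g = coefL n f * (coefL n f) ^ k := by
      induction k with
      | zero => exact ⟨f, hf, fun n => by simp⟩
      | succ k ih =>
        obtain ⟨g, hg, hg'⟩ := ih
        refine ⟨conv f g, hA.2 f hf g hg, fun n => ?_⟩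
        rw [coefL_conv, hg']
        ring
    obtain ⟨g, hg, hg'⟩ := hk
    refine ⟨c • g, A.smul_mem c hg, fun n => ?_⟩
    rw [map_smul, hg', Polynomial.eval_monomial, smul_eq_mul]
    ring

theorem finite_large (f : L1) (K : ℝ) (hK : ∀ F : Finset ℤ, ∑ n ∈ F, ‖coefL n f‖ ^ 2 ≤ K)
    (δ : ℝ) (hδ : 0 < δ) : {n : ℤ | δ ≤ ‖coefL n f‖}.Finite := by
  by_contra hinf
  obtain ⟨k, hk⟩ := exists_nat_gt (K / δ ^ 2)
  obtain ⟨F, hF, hcard⟩ := Set.Infinite.exists_subset_card_eq hinf k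
  have h1 := hK F
  have h2 : (k : ℝ) * δ ^ 2 ≤ ∑ n ∈ F, ‖coefL n f‖ ^ 2 := by
    rw [← hcard, ← nsmul_eq_mul]
    refine Finset.card_nsmul_le_sum _ _ _ fun n hn => ?_
    exact pow_le_pow_left₀ hδ.le (hF hn) 2
  rw [div_lt_iff₀ (by positivity)] at hk
  linarith

/-- The spectral idempotents of `f` for nonzero values belong to any closed subalgebra containing
`f`, when `f` has square summable Fourier coefficients. -/
theorem idem_mem (A : Submodule ℂ L1) (hA : IsClosedSubalgebra A) (f : L1) (hf : f ∈ A)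
    (K : ℝ) (hK : ∀ F : Finset ℤ, ∑ n ∈ F, ‖coefL n f‖ ^ 2 ≤ K) (c : ℂ) (hc : c ≠ 0)
    (E : Finset ℤ) (hE : ∀ n, n ∈ E ↔ coefL n f = c) :
    ∑ n ∈ E, ch n ∈ A := by
  classical
  have hfin := finite_large f K hK (‖c‖ / 2) (by positivity)
  set Z : Finset ℂ := (hfin.toFinset.image (fun n => coefL n f)).erase c with hZ
  set Λ : ℝ := ∏ w ∈ Z, (‖c‖ / 2 + ‖w‖) / ‖c - w‖ with hΛ
  have hΛ0 : 0 ≤ Λ := Finset.prod_nonneg fun w _ => by positivity
  have hcw : ∀ w ∈ Z, c - w ≠ 0 := by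
    intro w hw h
    rw [hZ, Finset.mem_erase] at hw
    exact hw.1 (sub_eq_zero.1 h).symm
  set P : ℕ → Polynomial ℂ := fun m => Polynomial.C (c ^ (m + 1))⁻¹ * Polynomial.X ^ m *
    ∏ w ∈ Z, (Polynomial.C (c - w)⁻¹ * (Polynomial.X - Polynomial.C w)) with hP
  have hPe : ∀ m z, z * (P m).eval z = (z / c) ^ (m + 1) * ∏ w ∈ Z, ((z - w) / (c - w)) := by
    intro m z
    simp only [hP, Polynomial.eval_mul, Polynomial.eval_C, Polynomial.eval_pow,
      Polynomial.eval_X, Polynomial.eval_prod, Polynomial.eval_sub]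
    have : ∀ w ∈ Z, (c - w)⁻¹ * (z - w) = (z - w) / (c - w) := fun w _ => by
      rw [div_eq_inv_mul]
    rw [Finset.prod_congr rfl this, div_pow]
    ring
  choose g hgA hg using fun m => exists_poly A hA f hf (P m)
  have hval : ∀ m n, coefL n (g m - ∑ n ∈ E, ch n) =
      if ‖c‖ / 2 ≤ ‖coefL n f‖ then 0 else
        (coefL n f / c) ^ (m + 1) * ∏ w ∈ Z, ((coefL n f - w) / (c - w)) := by
    intro m n
    have h1 : coefL n (∑ n ∈ E, ch n) = if n ∈ E then 1 else 0 := by
      have := coefL_sum_ch E (fun _ => 1) n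
      simpa using this
    rw [map_sub, hg, hPe, h1]
    by_cases hnE : n ∈ E
    · rw [if_pos hnE, (hE n).1 hnE, if_pos (by linarith [norm_nonneg c])]
      rw [div_self hc, one_pow, one_mul, Finset.prod_congr rfl (fun w hw => div_self (hcw w hw))]
      simp
    · rw [if_neg hnE, sub_zero]
      by_cases hbig : ‖c‖ / 2 ≤ ‖coefL n f‖
      · rw [if_pos hbig]
        have hmem : coefL n f ∈ Z := by
          rw [hZ, Finset.mem_erase]
          refine ⟨fun h => hnE ((hE n).2 h), Finset.mem_image.2 ⟨n, ?_, rfl⟩⟩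
          rw [Set.Finite.mem_toFinset]
          exact hbig
        rw [Finset.prod_eq_zero hmem (by simp), mul_zero]
      · rw [if_neg hbig]
  have hbound : ∀ m : ℕ, ‖g m - ∑ n ∈ E, ch n‖ ^ 2 ≤
      (1 / 4) ^ m * (Λ ^ 2 * (‖c‖ ^ 2)⁻¹ * K) := by
    intro m
    apply norm_sq_le_of_coef
    intro F
    have h1 : ∀ n ∈ F, ‖coefL n (g m - ∑ n ∈ E, ch n)‖ ^ 2 ≤
        (1 / 4) ^ m * (Λ ^ 2 * (‖c‖ ^ 2)⁻¹) * ‖coefL n f‖ ^ 2 := by
      intro n _
      rw [hval]
      split_ifs with hbig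
      · simp only [norm_zero, ne_eq, OfNat.ofNat_ne_zero, not_false_eq_true, zero_pow]
        positivity
      · push Not at hbig
        have h2 : ‖∏ w ∈ Z, ((coefL n f - w) / (c - w))‖ ≤ Λ := by
          rw [norm_prod, hΛ]
          refine Finset.prod_le_prod (fun w _ => norm_nonneg _) fun w _ => ?_
          rw [norm_div]
          refine div_le_div_of_nonneg_right ?_ (norm_nonneg _)
          exact (norm_sub_le _ _).trans (by linarith)
        have h3 : ‖(coefL n f / c) ^ (m + 1)‖ ≤ (1 / 2) ^ m * (‖coefL n f‖ / ‖c‖) := by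
          rw [norm_pow, norm_div, pow_succ]
          refine mul_le_mul_of_nonneg_right ?_ (by positivity)
          refine pow_le_pow_left₀ (by positivity) ?_ m
          rw [div_le_iff₀ (norm_pos_iff.2 hc)]
          linarith
        rw [norm_mul]
        calc (‖(coefL n f / c) ^ (m + 1)‖ * ‖∏ w ∈ Z, ((coefL n f - w) / (c - w))‖) ^ 2
            ≤ ((1 / 2) ^ m * (‖coefL n f‖ / ‖c‖) * Λ) ^ 2 := by
              refine pow_le_pow_left₀ (by positivity) ?_ 2
              exact mul_le_mul h3 h2 (norm_nonneg _) (by positivity)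
          _ = (1 / 4) ^ m * (Λ ^ 2 * (‖c‖ ^ 2)⁻¹) * ‖coefL n f‖ ^ 2 := by
              have h9 : ((1 / 2 : ℝ) ^ m) ^ 2 = (1 / 4) ^ m := by
                rw [← pow_mul, mul_comm, pow_mul]; norm_num
              rw [mul_pow, mul_pow, h9, div_pow]
              ring
    calc ∑ n ∈ F, ‖coefL n (g m - ∑ n ∈ E, ch n)‖ ^ 2
        ≤ ∑ n ∈ F, (1 / 4) ^ m * (Λ ^ 2 * (‖c‖ ^ 2)⁻¹) * ‖coefL n f‖ ^ 2 :=
          Finset.sum_le_sum h1
      _ = (1 / 4) ^ m * (Λ ^ 2 * (‖c‖ ^ 2)⁻¹) * ∑ n ∈ F, ‖coefL n f‖ ^ 2 := by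
          rw [Finset.mul_sum]
      _ ≤ (1 / 4) ^ m * (Λ ^ 2 * (‖c‖ ^ 2)⁻¹) * K :=
          mul_le_mul_of_nonneg_left (hK F) (by positivity)
      _ = (1 / 4) ^ m * (Λ ^ 2 * (‖c‖ ^ 2)⁻¹ * K) := by ring
  have hlim : Filter.Tendsto g Filter.atTop (nhds (∑ n ∈ E, ch n)) := by
    rw [tendsto_iff_norm_sub_tendsto_zero]
    have h1 : Filter.Tendsto (fun m : ℕ => (1 / 4 : ℝ) ^ m * (Λ ^ 2 * (‖c‖ ^ 2)⁻¹ * K))
        Filter.atTop (nhds 0) := by
      have := (tendsto_pow_atTop_nhds_zero_of_lt_one (r := (1 / 4 : ℝ)) (by norm_num)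
        (by norm_num)).mul_const (Λ ^ 2 * (‖c‖ ^ 2)⁻¹ * K)
      simpa using this
    have h2 : Filter.Tendsto (fun m : ℕ => ‖g m - ∑ n ∈ E, ch n‖ ^ 2) Filter.atTop (nhds 0) :=
      squeeze_zero (fun m => by positivity) hbound h1
    have h3 := (Real.continuous_sqrt.tendsto 0).comp h2
    rw [Real.sqrt_zero] at h3
    refine h3.congr fun m => ?_
    simp [Real.sqrt_sq (norm_nonneg _)]
  exact hA.1.mem_of_tendsto hlim (Filter.Eventually.of_forall hgA)

theorem idem_conv (E : Finset ℤ) : conv (∑ n ∈ E, ch n) (∑ n ∈ E, ch n) = ∑ n ∈ E, ch n := by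
  apply ext_coef
  intro m
  have h1 : coefL m (∑ n ∈ E, ch n) = if m ∈ E then 1 else 0 := by
    have := coefL_sum_ch E (fun _ => 1) m
    simpa using this
  rw [coefL_conv, h1]
  split_ifs <;> simp

/-- Elements with square summable Fourier coefficients are approximated by idempotents. -/
theorem mem_closure_of_sq (A : Submodule ℂ L1) (hA : IsClosedSubalgebra A) (f : L1) (hf : f ∈ A)
    (K : ℝ) (hK : ∀ F : Finset ℤ, ∑ n ∈ F, ‖coefL n f‖ ^ 2 ≤ K) :
    f ∈ closure ((Submodule.span ℂ {e : L1 | e ∈ A ∧ conv e e = e} : Submodule ℂ L1) : Set L1) := by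
  classical
  have hsum : Summable (fun n => ‖coefL n f‖ ^ 2) :=
    summable_of_sum_le (fun n => by positivity) hK
  have hfinE : ∀ c : ℂ, c ≠ 0 → {n : ℤ | coefL n f = c}.Finite := by
    intro c hc
    refine (finite_large f K hK ‖c‖ (norm_pos_iff.2 hc)).subset fun n hn => ?_
    simp only [Set.mem_ofPred_eq] at hn ⊢
    rw [hn]
  rw [Metric.mem_closure_iff]
  intro ε hε
  obtain ⟨F₀, hF₀⟩ := summable_iff_vanishing_norm.1 hsum ((ε / 2) ^ 2) (by positivity)
  set V : Finset ℂ := (F₀.image (fun n => coefL n f)).erase 0 with hV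
  have hV0 : ∀ c ∈ V, c ≠ 0 := fun c hc => (Finset.mem_erase.1 hc).1
  set e : ℂ → L1 := fun c => if h : c ≠ 0 then ∑ n ∈ (hfinE c h).toFinset, ch n else 0 with he
  have hecoef : ∀ c ∈ V, ∀ n, coefL n (e c) = if coefL n f = c then 1 else 0 := by
    intro c hc n
    have h1 : coefL n (∑ n ∈ (hfinE c (hV0 c hc)).toFinset, ch n) =
        if n ∈ (hfinE c (hV0 c hc)).toFinset then 1 else 0 := by
      have := coefL_sum_ch (hfinE c (hV0 c hc)).toFinset (fun _ => 1) n
      simpa using this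
    simp only [he, dif_pos (hV0 c hc)]
    rw [h1]
    simp [Set.Finite.mem_toFinset]
  refine ⟨∑ c ∈ V, c • e c, ?_, ?_⟩
  · refine Submodule.sum_mem _ fun c hc => Submodule.smul_mem _ _ (Submodule.subset_span ?_)
    simp only [he, dif_pos (hV0 c hc)]
    exact ⟨idem_mem A hA f hf K hK c (hV0 c hc) _ (fun n => by simp [Set.Finite.mem_toFinset]),
      idem_conv _⟩
  · have hcoef : ∀ n, coefL n (f - ∑ c ∈ V, c • e c) = if coefL n f ∈ V then 0 else coefL n f := by
      intro n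
      rw [map_sub, map_sum]
      have : ∀ c ∈ V, coefL n (c • e c) = if coefL n f = c then c else 0 := by
        intro c hc
        rw [map_smul, hecoef c hc n, smul_eq_mul]
        split_ifs <;> simp
      rw [Finset.sum_congr rfl this, Finset.sum_ite_eq]
      split_ifs <;> simp
    have hle : ‖f - ∑ c ∈ V, c • e c‖ ^ 2 ≤ (ε / 2) ^ 2 := by
      apply norm_sq_le_of_coef
      intro F
      have h1 : ∑ n ∈ F, ‖coefL n (f - ∑ c ∈ V, c • e c)‖ ^ 2 ≤
          ∑ n ∈ F \ F₀, ‖coefL n f‖ ^ 2 := by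
        rw [Finset.sdiff_eq_filter, Finset.sum_filter]
        refine Finset.sum_le_sum fun n hn => ?_
        rw [hcoef]
        by_cases hn0 : n ∈ F₀
        · rw [if_neg (not_not.2 hn0)]
          by_cases hz : coefL n f = 0
          · rw [hz]; simp
          · rw [if_pos (Finset.mem_erase.2 ⟨hz, Finset.mem_image.2 ⟨n, hn0, rfl⟩⟩)]
            simp
        · rw [if_pos hn0]
          split_ifs
          · simp
          · exact le_rfl
      have h2 := hF₀ (F \ F₀) Finset.sdiff_disjoint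
      rw [Real.norm_of_nonneg (Finset.sum_nonneg fun n _ => by positivity)] at h2
      linarith
    rw [dist_eq_norm]
    have := abs_le_of_sq_le_sq hle (by positivity)
    rw [abs_of_nonneg (norm_nonneg _)] at this
    linarith

theorem propertyP_of_reps (Q : Set ℤ) (B : ℕ) (hB0 : 0 < B)
    (hQ : ∀ F : Finset ℤ, (F : Set ℤ) ⊆ Q → ∀ i ∈ F ×ˢ F,
      ((F ×ˢ F).filter (fun j : ℤ × ℤ => i.1 + i.2 = j.1 + j.2)).card ≤ B) : PropertyP Q := by
  intro A hA f hf hfQ
  exact mem_closure_of_sq A hA f hf (B * ‖f‖ ^ 2) (sq_coef_le Q B hB0 hQ f hfQ)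

/-! ### The set of sums of two distinct powers of four -/

theorem digits_unique (N : ℕ) (v w : ℕ → ℕ) (hv : ∀ i, v i ≤ 3) (hw : ∀ i, w i ≤ 3)
    (h : ∑ i ∈ Finset.range N, v i * 4 ^ i = ∑ i ∈ Finset.range N, w i * 4 ^ i) :
    ∀ i < N, v i = w i := by
  have hlt : ∀ (u : ℕ → ℕ), (∀ i, u i ≤ 3) → ∀ N, ∑ i ∈ Finset.range N, u i * 4 ^ i < 4 ^ N := by
    intro u hu N
    induction N with
    | zero => simp
    | succ N ih =>
      rw [Finset.sum_range_succ, pow_succ]
      have := hu N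
      have h2 : u N * 4 ^ N ≤ 3 * 4 ^ N := Nat.mul_le_mul_right _ this
      omega
  induction N with
  | zero => intro i hi; omega
  | succ N ih =>
    rw [Finset.sum_range_succ, Finset.sum_range_succ] at h
    have h1 := hlt v hv N
    have h2 := hlt w hw N
    have hN : v N = w N := by
      rcases lt_trichotomy (v N) (w N) with hlt' | heq | hgt
      · have : (v N + 1) * 4 ^ N ≤ w N * 4 ^ N := Nat.mul_le_mul_right _ hlt'
        rw [add_mul, one_mul] at this
        omega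
      · exact heq
      · have : (w N + 1) * 4 ^ N ≤ v N * 4 ^ N := Nat.mul_le_mul_right _ hgt
        rw [add_mul, one_mul] at this
        omega
    have hrest : ∑ i ∈ Finset.range N, v i * 4 ^ i = ∑ i ∈ Finset.range N, w i * 4 ^ i := by
      rw [hN] at h
      omega
    intro i hi
    rcases Nat.lt_succ_iff_lt_or_eq.1 hi with hi' | rfl
    · exact ih hrest i hi'
    · exact hN

/-- Indicator of a point. -/
def ind (x i : ℕ) : ℕ := if i = x then 1 else 0

theorem sum_ind (N x : ℕ) (hx : x < N) : ∑ i ∈ Finset.range N, ind x i * 4 ^ i = 4 ^ x := by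
  unfold ind
  rw [Finset.sum_eq_single x]
  · simp
  · intro b _ hb; simp [hb]
  · intro h; exact absurd (Finset.mem_range.2 hx) h

theorem four_sum {a b c d a' b' c' d' : ℕ} (hab : a < b) (hcd : c < d) (hab' : a' < b')
    (hcd' : c' < d') (h : 4 ^ a + 4 ^ b + (4 ^ c + 4 ^ d) = 4 ^ a' + 4 ^ b' + (4 ^ c' + 4 ^ d')) :
    (a' = a ∨ a' = b ∨ a' = c ∨ a' = d) ∧ (b' = a ∨ b' = b ∨ b' = c ∨ b' = d) := by
  set N := b + d + b' + d' + 1 with hN
  have key := digits_unique N (fun i => ind a i + ind b i + (ind c i + ind d i))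
    (fun i => ind a' i + ind b' i + (ind c' i + ind d' i))
    (fun i => by unfold ind; split_ifs <;> omega) (fun i => by unfold ind; split_ifs <;> omega)
    (by
      simp only [add_mul, Finset.sum_add_distrib]
      rw [sum_ind N a (by omega), sum_ind N b (by omega), sum_ind N c (by omega),
        sum_ind N d (by omega), sum_ind N a' (by omega), sum_ind N b' (by omega),
        sum_ind N c' (by omega), sum_ind N d' (by omega)]
      exact h)
  constructor
  · have h1 := key a' (by omega)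
    simp only [ind] at h1
    by_contra hcon
    push Not at hcon
    rw [if_neg hcon.1, if_neg hcon.2.1, if_neg hcon.2.2.1, if_neg hcon.2.2.2] at h1
    simp only [if_true] at h1
    omega
  · have h1 := key b' (by omega)
    simp only [ind] at h1
    by_contra hcon
    push Not at hcon
    rw [if_neg hcon.1, if_neg hcon.2.1, if_neg hcon.2.2.1, if_neg hcon.2.2.2] at h1
    simp only [if_true] at h1
    omega

theorem two_sum {a b a' b' : ℕ} (hab : a < b) (hab' : a' < b')
    (h : 4 ^ a + 4 ^ b = 4 ^ a' + 4 ^ b') : a' = a ∧ b' = b := by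
  have := four_sum hab hab hab' hab' (by rw [h])
  omega

/-- The set of all sums of two distinct powers of four. -/
def QQ : Set ℤ := {n : ℤ | ∃ j k : ℕ, j < k ∧ n = 4 ^ j + 4 ^ k}

theorem reps_QQ (F : Finset ℤ) (hF : (F : Set ℤ) ⊆ QQ) (i : ℤ × ℤ) (hi : i ∈ F ×ˢ F) :
    ((F ×ˢ F).filter (fun j : ℤ × ℤ => i.1 + i.2 = j.1 + j.2)).card ≤ 16 := by
  classical
  rw [Finset.mem_product] at hi
  obtain ⟨a, b, hab, h1⟩ := hF hi.1
  obtain ⟨c, d, hcd, h2⟩ := hF hi.2
  set T : Finset ℕ := {a, b, c, d} with hT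
  have hTcard : T.card ≤ 4 := Finset.card_le_four
  set I : Finset ℤ := (T ×ˢ T).image (fun p : ℕ × ℕ => (4 : ℤ) ^ p.1 + 4 ^ p.2) with hI
  have hIcard : I.card ≤ 16 := by
    refine Finset.card_image_le.trans ?_
    rw [Finset.card_product]
    nlinarith
  refine le_trans (Finset.card_le_card_of_injOn (fun p => p.1) ?_ ?_) hIcard
  · intro p hp
    rw [Finset.coe_filter] at hp
    obtain ⟨hp1, hp2⟩ := hp
    rw [Finset.mem_product] at hp1
    obtain ⟨a', b', hab', h3⟩ := hF hp1.1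
    obtain ⟨c', d', hcd', h4⟩ := hF hp1.2
    rw [h1, h2, h3, h4] at hp2
    have h5 : 4 ^ a + 4 ^ b + (4 ^ c + 4 ^ d) = 4 ^ a' + 4 ^ b' + (4 ^ c' + 4 ^ d') := by
      exact_mod_cast hp2
    have h6 := four_sum hab hcd hab' hcd' h5
    rw [hI, Finset.coe_image]
    refine ⟨(a', b'), ?_, ?_⟩
    · rw [Finset.coe_product]
      constructor
      · simp only [hT]; simpa using h6.1
      · simp only [hT]; simpa using h6.2
    · exact h3.symm
  · intro p hp q hq h
    rw [Finset.coe_filter] at hp hq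
    have h3 := hp.2
    have h4 := hq.2
    simp only at h
    ext
    · exact h
    · linarith

theorem geom_orth (N : ℕ) (hN : 0 < N) (ζ : ℂ) (hζ : IsPrimitiveRoot ζ N) (k k' : ℕ) (hk : k < N)
    (hk' : k' < N) :
    ∑ j ∈ Finset.range N, ζ ^ (j * k) * (starRingEnd ℂ) (ζ ^ (j * k')) =
      if k = k' then (N : ℂ) else 0 := by
  have hnorm : ‖ζ‖ = 1 := hζ.norm'_eq_one hN.ne'
  have hz0 : ζ ≠ 0 := by intro h; rw [h] at hnorm; simp at hnorm
  have hconj : (starRingEnd ℂ) ζ = ζ⁻¹ := by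
    rw [Complex.inv_def, Complex.normSq_eq_norm_sq, hnorm]; simp
  set η : ℂ := ζ ^ k * (ζ⁻¹) ^ k' with hη
  have hterm : ∀ j ∈ Finset.range N, ζ ^ (j * k) * (starRingEnd ℂ) (ζ ^ (j * k')) = η ^ j := by
    intro j _
    rw [map_pow, hconj, hη, mul_pow, ← pow_mul, ← pow_mul, mul_comm k j, mul_comm k' j]
  rw [Finset.sum_congr rfl hterm]
  by_cases h : k = k'
  · rw [if_pos h]
    have : η = 1 := by
      rw [hη, h, ← mul_pow, mul_inv_cancel₀ hz0, one_pow]
    rw [this]
    simp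
  · rw [if_neg h]
    have hne : η ≠ 1 := by
      intro h1
      apply h
      rw [hη, inv_pow, mul_inv_eq_one₀ (pow_ne_zero _ hz0)] at h1
      exact hζ.pow_inj hk hk' h1
    have hpow : η ^ N = 1 := by
      rw [hη, mul_pow, ← pow_mul, ← pow_mul, mul_comm k N, mul_comm k' N, pow_mul, pow_mul,
        inv_pow, hζ.pow_eq_one]
      simp
    have h2 := mul_neg_geom_sum η N
    rw [hpow, sub_self] at h2
    rcases mul_eq_zero.1 h2 with h3 | h3
    · exact absurd (sub_eq_zero.1 h3).symm hne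
    · exact h3

theorem bilinear_bound (N : ℕ) (hN : 0 < N) (ζ : ℂ) (hζ : IsPrimitiveRoot ζ N) (z w : ℕ → ℂ)
    (hz : ∀ j, ‖z j‖ = 1) (hw : ∀ k, ‖w k‖ = 1) :
    ‖∑ j ∈ Finset.range N, ∑ k ∈ Finset.range N, ζ ^ (j * k) * (z j * w k)‖ ≤
      N * Real.sqrt N := by
  set T : ℕ → ℂ := fun j => ∑ k ∈ Finset.range N, ζ ^ (j * k) * w k with hT
  have h1 : ∑ j ∈ Finset.range N, ∑ k ∈ Finset.range N, ζ ^ (j * k) * (z j * w k) =
      ∑ j ∈ Finset.range N, z j * T j := by
    refine Finset.sum_congr rfl fun j _ => ?_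
    rw [hT, Finset.mul_sum]
    refine Finset.sum_congr rfl fun k _ => ?_
    ring
  have h2 : ‖∑ j ∈ Finset.range N, z j * T j‖ ≤ ∑ j ∈ Finset.range N, ‖T j‖ := by
    refine (norm_sum_le _ _).trans (le_of_eq (Finset.sum_congr rfl fun j _ => ?_))
    rw [norm_mul, hz, one_mul]
  have h3 : ((∑ j ∈ Finset.range N, ‖T j‖ ^ 2 : ℝ) : ℂ) = (N : ℂ) * N := by
    push_cast
    have : ∀ j ∈ Finset.range N, ((‖T j‖ : ℂ)) ^ 2 =
        ∑ k ∈ Finset.range N, ∑ k' ∈ Finset.range N, (w k * (starRingEnd ℂ) (w k')) *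
          (ζ ^ (j * k) * (starRingEnd ℂ) (ζ ^ (j * k'))) := by
      intro j _
      rw [← Complex.mul_conj', hT, map_sum, Finset.sum_mul_sum]
      refine Finset.sum_congr rfl fun k _ => Finset.sum_congr rfl fun k' _ => ?_
      rw [map_mul]
      ring
    rw [Finset.sum_congr rfl this, Finset.sum_comm]
    have h4 : ∀ k ∈ Finset.range N, ∑ j ∈ Finset.range N, ∑ k' ∈ Finset.range N,
        (w k * (starRingEnd ℂ) (w k')) * (ζ ^ (j * k) * (starRingEnd ℂ) (ζ ^ (j * k'))) =
        (N : ℂ) := by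
      intro k hk
      rw [Finset.sum_comm]
      have h5 : ∀ k' ∈ Finset.range N, ∑ j ∈ Finset.range N,
          (w k * (starRingEnd ℂ) (w k')) * (ζ ^ (j * k) * (starRingEnd ℂ) (ζ ^ (j * k'))) =
          if k = k' then (N : ℂ) else 0 := by
        intro k' hk'
        rw [← Finset.mul_sum, geom_orth N hN ζ hζ k k' (Finset.mem_range.1 hk)
          (Finset.mem_range.1 hk')]
        split_ifs with h
        · rw [h, Complex.mul_conj', hw]; simp
        · simp
      rw [Finset.sum_congr rfl h5, Finset.sum_ite_eq, if_pos hk]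
    rw [Finset.sum_congr rfl h4]
    simp
  have h6 : ∑ j ∈ Finset.range N, ‖T j‖ ^ 2 = (N : ℝ) * N := by exact_mod_cast h3
  have h7 : (∑ j ∈ Finset.range N, ‖T j‖) ^ 2 ≤ (N * Real.sqrt N) ^ 2 := by
    have := sq_sum_le_card_mul_sum_sq (s := Finset.range N) (f := fun j => ‖T j‖)
    rw [h6, Finset.card_range] at this
    refine this.trans (le_of_eq ?_)
    rw [mul_pow, Real.sq_sqrt (by positivity)]
    ring
  rw [h1]
  refine h2.trans ?_
  have h8 := abs_le_of_sq_le_sq h7 (by positivity)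
  rwa [abs_of_nonneg (Finset.sum_nonneg fun j _ => norm_nonneg _)] at h8

theorem not_sidon_QQ : ¬ IsSidon QQ := by
  classical
  rintro ⟨C, hC⟩
  obtain ⟨N, hN⟩ := exists_nat_gt ((max C 0) ^ 2)
  have hNpos : 0 < N := by
    have : (0 : ℝ) < N := lt_of_le_of_lt (by positivity) hN
    exact_mod_cast this
  set ζ : ℂ := Complex.exp (2 * Real.pi * Complex.I / N) with hζdef
  have hζ : IsPrimitiveRoot ζ N := Complex.isPrimitiveRoot_exp N hNpos.ne'
  have hnorm : ‖ζ‖ = 1 := hζ.norm'_eq_one hNpos.ne'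
  set φ : ℕ × ℕ → ℤ := fun p => 4 ^ p.1 + 4 ^ (N + p.2) with hφ
  set R := Finset.range N ×ˢ Finset.range N with hR
  have hinj : Set.InjOn φ (R : Set (ℕ × ℕ)) := by
    intro p hp q hq h
    simp only [hR, Finset.coe_product, Finset.coe_range, Set.mem_prod, Set.mem_Iio] at hp hq
    simp only [hφ] at h
    have h' : 4 ^ p.1 + 4 ^ (N + p.2) = 4 ^ q.1 + 4 ^ (N + q.2) := by exact_mod_cast h
    have := two_sum (by omega) (by omega) h'
    ext <;> omega
  set a : ℤ → ℂ := fun n => ∑ p ∈ R, if φ p = n then ζ ^ (p.1 * p.2) else 0 with ha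
  have haφ : ∀ p ∈ R, a (φ p) = ζ ^ (p.1 * p.2) := by
    intro p hp
    simp only [ha]
    rw [Finset.sum_eq_single p]
    · simp
    · intro q hq hne
      rw [if_neg]
      intro h
      exact hne (hinj hq hp h)
    · intro h; exact absurd hp h
  have hsub : ((R.image φ : Finset ℤ) : Set ℤ) ⊆ QQ := by
    intro n hn
    rw [Finset.coe_image] at hn
    obtain ⟨p, hp, rfl⟩ := hn
    simp only [hR, Finset.coe_product, Finset.coe_range, Set.mem_prod, Set.mem_Iio] at hp
    exact ⟨p.1, N + p.2, by omega, rfl⟩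
  have h1 := hC (R.image φ) a hsub
  have h2 : ∑ n ∈ R.image φ, ‖a n‖ = (N : ℝ) * N := by
    rw [Finset.sum_image hinj]
    have : ∀ p ∈ R, ‖a (φ p)‖ = 1 := by
      intro p hp
      rw [haφ p hp, norm_pow, hnorm, one_pow]
    rw [Finset.sum_congr rfl this]
    simp [hR]
  have h3 : ∀ x : Circ, ‖∑ n ∈ R.image φ, a n * fourier n x‖ ≤ N * Real.sqrt N := by
    intro x
    rw [Finset.sum_image hinj]
    have : ∑ p ∈ R, a (φ p) * (fourier (φ p) x : ℂ) =
        ∑ j ∈ Finset.range N, ∑ k ∈ Finset.range N, ζ ^ (j * k) *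
          ((fourier (4 ^ j) x : ℂ) * fourier (4 ^ (N + k)) x) := by
      rw [← Finset.sum_product']
      refine Finset.sum_congr rfl fun p hp => ?_
      rw [haφ p hp]
      simp only [hφ]
      rw [fourier_add]
    rw [this]
    exact bilinear_bound N hNpos ζ hζ _ _ (fun j => by simp only [fourier_apply, Circle.norm_coe])
      (fun k => by simp only [fourier_apply, Circle.norm_coe])
  have h4 : ⨆ x : Circ, ‖∑ n ∈ R.image φ, a n * fourier n x‖ ≤ N * Real.sqrt N := ciSup_le h3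
  have h5 : 0 ≤ ⨆ x : Circ, ‖∑ n ∈ R.image φ, a n * fourier n x‖ :=
    Real.iSup_nonneg fun x => norm_nonneg _
  rw [h2] at h1
  have h6 : (N : ℝ) * N ≤ max C 0 * (N * Real.sqrt N) := by
    calc (N : ℝ) * N ≤ C * ⨆ x : Circ, ‖∑ n ∈ R.image φ, a n * fourier n x‖ := h1
      _ ≤ max C 0 * ⨆ x : Circ, ‖∑ n ∈ R.image φ, a n * fourier n x‖ :=
          mul_le_mul_of_nonneg_right (le_max_left _ _) h5
      _ ≤ max C 0 * (N * Real.sqrt N) := mul_le_mul_of_nonneg_left h4 (le_max_right _ _)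
  have hNr : (0 : ℝ) < N := by exact_mod_cast hNpos
  have hs : 0 < Real.sqrt N := Real.sqrt_pos.2 hNr
  have h7 : Real.sqrt N ≤ max C 0 := by
    have h8 : (N : ℝ) * (Real.sqrt N * Real.sqrt N) ≤ N * (Real.sqrt N * max C 0) := by
      rw [Real.mul_self_sqrt hNr.le]
      linarith
    have h9 := le_of_mul_le_mul_left h8 hNr
    exact le_of_mul_le_mul_left h9 hs
  have h8 : (N : ℝ) ≤ (max C 0) ^ 2 := by
    calc (N : ℝ) = Real.sqrt N ^ 2 := (Real.sq_sqrt hNr.le).symm
      _ ≤ (max C 0) ^ 2 := pow_le_pow_left₀ hs.le h7 2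
  linarith

/-- The set of sums of two distinct powers of four has property (P) but is not a Sidon set. -/
theorem result :
    PropertyP {n : ℤ | ∃ j k : ℕ, j < k ∧ n = 4 ^ j + 4 ^ k} ∧
      ¬ IsSidon {n : ℤ | ∃ j k : ℕ, j < k ∧ n = 4 ^ j + 4 ^ k} :=
  ⟨propertyP_of_reps QQ 16 (by norm_num) (fun F hF i hi => reps_QQ F hF i hi), not_sidon_QQ⟩

end Pool.Agent.Results.MP_535799_an.NonSidon
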